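import Pool.Agent.Work.MP_7f0ddb_an.H59.Final

/-!
# A stably finite tensor product action with the Rokhlin property and a factor without it
-/

namespace Pool.Agent.Results.MP_7f0ddb_an.BunceDeddensTensorCAR

open Pool.Agent.Work.MP_7f0ddb_an.Problem

/-- There are simple unital C*-algebras `A`, `B` whose minimal tensor product `D` is stably finite
and actions `α`, `β` of groups of order two on `A` and `B` such that the tensor product action
`γ` has the Rokhlin property and `α` does not (although `β` does). -/
theorem result : ∃ S : TensorProductAction, IsStablyFinite S.D ∧ Nat.card S.G = 2 ∧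
    Nat.card S.H = 2 ∧ HasRokhlinProperty S.γ ∧ HasRokhlinProperty S.β ∧
    ¬ HasRokhlinProperty S.α :=
  Pool.Agent.Work.MP_7f0ddb_an.H59.exists_example

end Pool.Agent.Results.MP_7f0ddb_an.BunceDeddensTensorCAR
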